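import Pool.Agent.KS6_33.ZB.E
import Pool.Agent.KS6_33.ZB.F

/-!
# Zariski's question B fails in every dimension, even for irreducible germs

In `C^(m+3)` with coordinates `x, y, z, w₁, …, w_m` let

* `V₀ : y (z³ x + y⁵) + z⁶ = 0`, and
* `V₁ : y (z³ x + y⁵ + z² y²) + z⁶ = 0`.

Both germs at `0` are irreducible, since they are the images of
`(u, v, w) ↦ (-(u¹² + ε u⁵ v + v¹²), u³ v³, u v⁵, w)`, `ε = 0, 1`. They are topologically
equisingular (by the shear `x ↦ x - (y² / z) min (1, |z|³ / |y|⁵)`). Their exceptional varieties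
`{x y z = 0}` and `{y z (x z + y²) = 0}` in `P^(m+2)` are not homeomorphic: by invariance of domain
the points in two of the three hyperplanes `x = 0`, `y = 0`, `z = 0` are exactly the points of the
first one near which it has no continuous injection into `C^(m+1)`; so a homeomorphism would carry
the closures of the three connected sets `z = 0 ≠ y`, `y = 0 ≠ x z` and `x z + y² = 0 ≠ y` onto the
three hyperplanes, but the intersection of the first two closures is contained in the third one.
-/

set_option autoImplicit false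

namespace Pool.Agent.Results.MP_f1850b_ag.IrreducibleGerms

open Pool.Agent.KS6_33.ZB

/-- The assertion asked about in Q1 for a fixed dimension `r` of the germs, and only for
irreducible germs. -/
def QuestionBIrreducible (r : ℕ) : Prop :=
  ∀ V V' : Set (Fin (r + 1) → ℂ),
    IsHypersurfaceGerm V → IsHypersurfaceGerm V' → IsIrreducibleGerm V → IsIrreducibleGerm V' →
    TopEquisingular V 0 V' 0 →
    ∃ F : excVariety V ≃ₜ excVariety V', ∀ P : excVariety V,
      TopEquisingular (excVariety V) (P : PSpace (r + 1)) (excVariety V') (F P) ∧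
      TopEquisingular (properTransform V) (excPoint (P : PSpace (r + 1)))
        (properTransform V') (excPoint (F P : PSpace (r + 1)))

/-- **Zariski's question B has a negative answer in every dimension `r ≥ 2`, even for irreducible
germs.** The germs of `f₀ = y (z³ x + y⁵) + z⁶` and `f₁ = f₀ + z² y³` in `C^(m+3)` are irreducible
and topologically equisingular, and their exceptional varieties are not homeomorphic. -/
theorem result :
    (∀ r : ℕ, 2 ≤ r → ¬ QuestionBIrreducible r) ∧
    ∀ m : ℕ,
      IsHypersurfaceGerm (zeroSet (f₀ m)) ∧ IsHypersurfaceGerm (zeroSet (f₁ m)) ∧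
      IsIrreducibleGerm (zeroSet (f₀ m)) ∧ IsIrreducibleGerm (zeroSet (f₁ m)) ∧
      TopEquisingular (zeroSet (f₀ m)) 0 (zeroSet (f₁ m)) 0 ∧
      IsEmpty (excVariety (zeroSet (f₀ m)) ≃ₜ excVariety (zeroSet (f₁ m))) := by
  have key : ∀ m : ℕ,
      IsHypersurfaceGerm (zeroSet (f₀ m)) ∧ IsHypersurfaceGerm (zeroSet (f₁ m)) ∧
      IsIrreducibleGerm (zeroSet (f₀ m)) ∧ IsIrreducibleGerm (zeroSet (f₁ m)) ∧
      TopEquisingular (zeroSet (f₀ m)) 0 (zeroSet (f₁ m)) 0 ∧
      IsEmpty (excVariety (zeroSet (f₀ m)) ≃ₜ excVariety (zeroSet (f₁ m))) := by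
    intro m
    refine ⟨?_, ?_, ?_, ?_, equisingular m, no_homeo m⟩
    · rw [zero_eq0]
      exact germ_geps 0
    · rw [zero_eq1]
      exact germ_geps 1
    · rw [zero_eq0]
      exact irr_geps 0 (by simp)
    · rw [zero_eq1]
      exact irr_geps 1 (by simp)
  refine ⟨?_, key⟩
  intro r hr h
  obtain ⟨m, rfl⟩ : ∃ m, r = m + 2 := ⟨r - 2, by omega⟩
  obtain ⟨g0, g1, i0, i1, e, n⟩ := key m
  obtain ⟨F, -⟩ := h (zeroSet (f₀ m)) (zeroSet (f₁ m)) g0 g1 i0 i1 e
  exact n.false F

end Pool.Agent.Results.MP_f1850b_ag.IrreducibleGerms
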